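import Mathlib
import Pool.Agent.Z700.Defs

/-!
# Twists of `X_0(15)` by `-n`, `n ≡ 23, 47 mod 60` squarefree: definitions and statements

The definite side counts vectors of the ternary lattice `ℤ³` with Gram matrix
`[[3,-1,-1],[-1,7,-3],[-1,-3,7]]` (the trace zero part of `ℤ + 2 O`, `O` a maximal order of the
quaternion algebra ramified at `5` and `∞`), the indefinite side consists of binary forms of
discriminant `4` and level `15`.
-/

set_option autoImplicit false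

namespace Pool.Agent.N969.P15

open Finset
open Pool.Agent.Z700 (hh fac)

noncomputable section

/-- vectors of `ℤ³` -/
abbrev V3 := Fin 3 → ℤ

/-- the inner product of the ternary lattice -/
def ip (v w : V3) : ℤ :=
  3 * (v 0 * w 0) + 7 * (v 1 * w 1) + 7 * (v 2 * w 2) - (v 0 * w 1 + v 1 * w 0) -
    (v 0 * w 2 + v 2 * w 0) - 3 * (v 1 * w 2 + v 2 * w 1)

/-- the vectors of norm `n` -/
def vec (n : ℤ) : Finset V3 :=
  (Fintype.piFinset fun _ => Icc (-n) n).filter fun v => ip v v = n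

/-- the number of vectors of norm `n` -/
def rr (n : ℤ) : ℤ := (vec n).card

/-- the number of vectors of norm `n` orthogonal to the base line modulo `3` -/
def rr0 (n : ℤ) : ℤ := ((vec n).filter fun v => (3 : ℤ) ∣ v 1 + v 2).card

/-- the Gross sum -/
def cc (n : ℤ) : ℤ := if n % 3 = 0 then rr n - 4 * rr0 n else rr n - 2 * rr0 n

/-- the number of pairs of vectors with Gram matrix `(n1, b; b, n2)` -/
def cp (n1 b n2 : ℤ) : ℕ := ((vec n1 ×ˢ vec n2).filter fun q => ip q.1 q.2 = b).card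

/-- the local factor at `2` -/
def tw (n1 D : ℕ) : ℤ :=
  ∑ j ∈ range (D.factorization 2 - 1), (if n1 % 8 = 7 then (1 : ℤ) else -1) ^ j

/-- the local densities away from `3` -/
def lrest (n1 D : ℕ) : ℤ :=
  if Odd (D.factorization 5) then
    tw n1 D * ∏ l ∈ ((D.primeFactors.erase 2).erase 3).erase 5, fac n1 D l
  else 0

/-- the local densities -/
def loc (n1 D : ℕ) : ℤ :=
  if Odd (D.factorization 5) then
    tw n1 D * ∏ l ∈ (D.primeFactors.erase 2).erase 5, fac n1 D l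
  else 0

/-- the local densities with the count at `3` of the pairs with a common line -/
def loc3 (n1 D : ℕ) : ℤ := (D.factorization 3 : ℤ) * lrest n1 D

/-! ### pair counts -/

/-- PC15: the number of pairs of vectors with given Gram matrix -/
def S_PC : Prop := ∀ (n1 n2 : ℕ) (b : ℤ) (D : ℕ), Squarefree n1 → n1 % 4 = 3 → ¬ 5 ∣ n1 →
  0 < D → (D : ℤ) = n1 * n2 - b ^ 2 → (cp n1 b n2 : ℤ) = 6 * loc n1 D

/-! ### the relations with the Gross sums -/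

/-- the number of pairs with inner product divisible by `3` -/
def cp0 (n1 n2 : ℤ) : ℕ := ((vec n1 ×ˢ vec n2).filter fun q => (3 : ℤ) ∣ ip q.1 q.2).card

/-- REL33 -/
def S_REL33 : Prop := ∀ n1 n2 : ℕ, 3 ∣ n1 → ¬ 9 ∣ n1 → 3 ∣ n2 → ¬ 9 ∣ n2 →
  12 * (cp0 n1 n2 : ℤ) = 3 * rr n1 * rr n2 + cc n1 * cc n2

/-- REL32 -/
def S_REL32 : Prop := ∀ n1 n2 : ℕ, 3 ∣ n1 → ¬ 9 ∣ n1 → n2 % 3 = 2 →
  6 * (cp0 n1 n2 : ℤ) = 3 * rr n1 * rr n2 + cc n1 * cc n2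

/-- REL31: there are no such pairs for `n2 ≡ 1 mod 3` -/
def S_REL31 : Prop := ∀ n1 n2 : ℕ, 3 ∣ n1 → ¬ 9 ∣ n1 → n2 % 3 = 1 → cp0 n1 n2 = 0

/-- the number of pairs with inner product `b` which are proportional modulo `3` -/
def cp3 (n1 b n2 : ℤ) : ℕ := ((vec n1 ×ˢ vec n2).filter fun q =>
  ip q.1 q.2 = b ∧ ∀ i, (3 : ℤ) ∣ q.1 i + b * q.2 i).card

/-- REL22: the pairs with a common isotropic line modulo `3`, with given signs at `3` and `5` -/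
def S_REL22 : Prop := ∀ n1 n2 : ℕ, n1 % 3 = 2 → n2 % 3 = 2 → ¬ 5 ∣ n1 → ¬ 5 ∣ n2 →
  ∀ r3 r5 : ℤ, (r3 = 1 ∨ r3 = 2) → 0 < r5 → r5 < 5 → (5 : ℤ) ∣ r5 ^ 2 - n1 * n2 →
  ∀ B : ℤ, (n1 : ℤ) * n2 < B ^ 2 → 0 < B →
  12 * ∑ b ∈ (Ioo (-B) B).filter (fun b : ℤ => b % 3 = r3 ∧ b % 5 = r5),
    ((cp n1 b n2 : ℤ) + cp3 n1 b n2) = 3 * rr n1 * rr n2 + cc n1 * cc n2

/-- CP3: evaluation of the counts for a given inner product -/
def S_CP3 : Prop := ∀ (n1 n2 : ℕ) (b : ℤ) (D : ℕ), Squarefree n1 → n1 % 4 = 3 → n1 % 3 = 2 →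
  n2 % 3 = 2 → ¬ 5 ∣ n1 → ¬ (3 : ℤ) ∣ b → 0 < D → (D : ℤ) = n1 * n2 - b ^ 2 →
  (cp n1 b n2 : ℤ) + cp3 n1 b n2 = 12 * loc3 n1 D

/-- the arithmetic side of the bilinear identities, `N = n` or `N = 2 n` -/
def AA (n N : ℕ) : ℤ := ∑ T ∈ (range N).filter (fun T => 5 ∣ T ∧ 3 ∣ N - T),
  loc3 n (4 * (N - T) * T)

/-- the class of the main theorem -/
def Cls0 (n : ℕ) : Prop := Squarefree n ∧ (n % 60 = 23 ∨ n % 60 = 47)

/-- the auxiliary class `3 m` -/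
def Cls3 (m : ℕ) : Prop := Squarefree m ∧ m % 4 = 1 ∧ ¬ 3 ∣ m ∧ (m % 5 = 1 ∨ m % 5 = 4)

/-- BIL: the bilinear identities -/
def S_BIL1 : Prop := ∀ n : ℕ, Cls0 n → 144 * AA n n = 3 * rr n ^ 2 + cc n ^ 2

def S_BIL2 : Prop := ∀ n : ℕ, Cls0 n →
  144 * AA n (2 * n) = 3 * rr (4 * n) * rr n + cc (4 * n) * cc n

/-- the sign at `2` -/
def ep2 (n : ℕ) : ℤ := if n % 8 = 7 then 1 else -1

/-- HE: the Hecke relations at `2` -/
def S_HE : Prop := ∀ n : ℕ, n % 4 = 3 → n % 3 = 2 →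
  rr (4 * n) = (3 - ep2 n) * rr n ∧ rr0 (4 * n) = 2 * rr n - (1 + ep2 n) * rr0 n

/-! ### divisibility and parity -/

/-- U33 -/
def S_U33 : Prop := ∀ m : ℕ, Cls3 m → 1 < m →
  (2 : ℤ) ^ (m.primeFactors.card + 2) ∣
    ∑ d ∈ m.divisors.filter (fun d => d % 4 = 1), (cp0 (3 * d : ℕ) (3 * (m / d) : ℕ) : ℤ)

/-- U32 -/
def S_U32 : Prop := ∀ n : ℕ, Cls0 n →
  (2 : ℤ) ^ (n.primeFactors.card + 1) ∣
    ∑ d ∈ n.divisors.filter (fun d => d % 4 = 1), (cp0 (3 * d : ℕ) (n / d : ℕ) : ℤ)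

/-- the elementary form of no ideal class of order four: only the trivial factorizations of `n`
are solvable -/
def Qc (n : ℕ) : Prop := ∀ b c : ℕ, b * c = n → (∀ p ∈ c.primeFactors, jacobiSym b p = 1) →
  (∀ p ∈ b.primeFactors, jacobiSym c p = 1) → b = 1 ∨ c = 1

/-- R: the parity of the number of vectors -/
def S_R : Prop := ∀ n : ℕ, Squarefree n → n % 4 = 3 → (n % 5 = 2 ∨ n % 5 = 3) → 3 < n →
  ∃ g : ℤ, rr n = 2 ^ n.primeFactors.card * g ∧ (Odd g ↔ Qc n)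

/-- PAR: the parity of the Gross sum -/
def S_PAR : Prop := ∀ n : ℕ, Cls0 n →
  ∃ y : ℤ, cc n = 2 ^ n.primeFactors.card * y ∧ (Odd y ↔ Qc n)

/-! ### the symbol -/

/-- the forms `A x² + B x y + C y²` of discriminant `4` entering the symbol -/
def Fm (q : ℤ × ℤ × ℤ) : Prop := q.2.1 ^ 2 - 4 * q.1 * q.2.2 = 4 ∧ (15 : ℤ) ∣ q.1 ∧
  (q.2.1 % 30 = 22 ∨ q.2.1 % 30 = 8)

/-- the weight of a form: a sign for the orientation times `-1` for the imprimitive forms -/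
def cQ (q : ℤ × ℤ × ℤ) : ℤ := (if q.2.1 % 30 = 22 then 1 else -1) *
  (if (2 : ℤ) ∣ q.1 ∧ (2 : ℤ) ∣ q.2.2 then -1 else 1)

open Classical in
/-- the number of forms changing sign between `∞` and `x / M` -/
def Fp (x M : ℤ) : ℤ := ∑ᶠ q : ℤ × ℤ × ℤ,
  if Fm q ∧ 0 < q.1 ∧ q.1 * x ^ 2 + q.2.1 * x * M + q.2.2 * M ^ 2 < 0 then cQ q else 0

/-- the local weight at `p` -/
def psp (p a a' Y X : ℕ) : ℤ := if p ∣ a ∧ p ∣ X then jacobiSym ((a' * Y : ℕ) : ℤ) p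
  else jacobiSym (-((a * X : ℕ) : ℤ)) p

/-- the divisor sum of the indefinite side -/
def WW (n S T : ℕ) : ℤ :=
  ∑ a ∈ S.divisors.filter (3 ∣ ·), ∑ a' ∈ T.divisors.filter (5 ∣ ·),
    ∏ p ∈ n.primeFactors, psp p a a' (S / a) (T / a')

/-- the units modulo `n` represented by naturals -/
def un (n : ℕ) : Finset ℕ := (range n).filter fun u => Nat.Coprime u n

/-- the sum of the divisor sums -/
def WT (n N : ℕ) : ℤ := ∑ T ∈ (range N).filter (fun T => 5 ∣ T ∧ 3 ∣ N - T), WW n (N - T) T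

/-- the sum over the cusps for `a Y + a' X = N` -/
def WU (n N : ℕ) : ℤ := ∑ T ∈ (range N).filter (fun T => 5 ∣ T ∧ 3 ∣ N - T),
  ∑ a ∈ (N - T).divisors.filter (3 ∣ ·), ∑ a' ∈ T.divisors.filter (5 ∣ ·),
    ∑ u ∈ (un n).filter (fun u : ℕ => (n : ℤ) ∣ (a : ℤ) * (u : ℤ) + ((T / a' : ℕ) : ℤ) ∧
      (n : ℤ) ∣ (a' : ℤ) * (u : ℤ) - (((N - T) / a : ℕ) : ℤ)), jacobiSym u n

/-- C1A: the forms and the cusps as factorizations -/
def S_C1A : Prop := ∀ n : ℕ, Cls0 n →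
  ∑ u ∈ un n, jacobiSym u n * Fp u n = 2 * (WU n (2 * n) - 3 * WU n n)

/-- C1B: the character sum over the cusps for a given matrix of determinant `n` or `2 n` -/
def S_C1B : Prop := ∀ n : ℕ, Squarefree n → n % 4 = 3 → ∀ N : ℕ, (N = n ∨ N = 2 * n) →
  ∀ a a' X Y : ℕ, a * Y + a' * X = N →
  ∑ u ∈ (un n).filter (fun u : ℕ => (n : ℤ) ∣ (a : ℤ) * (u : ℤ) + (X : ℤ) ∧
    (n : ℤ) ∣ (a' : ℤ) * (u : ℤ) - (Y : ℤ)), jacobiSym u n = ∏ p ∈ n.primeFactors, psp p a a' Y X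

/-- C2: evaluation of the divisor sums, determinant `n` -/
def S_C2A : Prop := ∀ n : ℕ, Cls0 n → ∀ T : ℕ, 0 < T → T < n → 5 ∣ T → 3 ∣ n - T →
  WW n (n - T) T = - loc3 n (4 * (n - T) * T)

/-- C2: evaluation of the divisor sums, determinant `2 n` -/
def S_C2B : Prop := ∀ n : ℕ, Cls0 n → ∀ T : ℕ, 0 < T → T < 2 * n → 5 ∣ T → 3 ∣ 2 * n - T →
  WW n (2 * n - T) T = - (loc3 n (4 * (2 * n - T) * T) +
    if 2 ∣ T then ep2 n * loc3 n ((2 * n - T) * T) else 0)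

/-- DIAG: the character sum of `Fp` is a square up to a factor -/
def S_DIAG : Prop := ∀ n : ℕ, Cls0 n →
  18 * ∑ u ∈ un n, jacobiSym u n * Fp u n = cc n ^ 2

end

end Pool.Agent.N969.P15
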