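import Mathlib
import Pool.Agent.N969.P15.Defs

/-!
# Twists of `X_0(15)`: statements for the even discriminants `D = -n`, `n = 4 m`

Together with `Pool.Agent.N969.P15.Defs` this covers all negative fundamental discriminants `D = -n`
such that `3` splits and `5` is inert in `ℚ(√D)`.
-/

set_option autoImplicit false

namespace Pool.Agent.N969.P15

open Finset
open Pool.Agent.Z700 (hh fac)

noncomputable section

/-- `-n` is an even fundamental discriminant -/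
def Ev (n : ℕ) : Prop := ∃ m : ℕ, n = 4 * m ∧ Squarefree m ∧ (m % 4 = 1 ∨ m % 4 = 2)

/-- the class of the main theorem, even discriminants -/
def Cls0e (n : ℕ) : Prop := Ev n ∧ n % 3 = 2 ∧ (n % 5 = 2 ∨ n % 5 = 3)

/-- the auxiliary class `3 m`, even discriminants -/
def Cls3e (m : ℕ) : Prop := (∃ a : ℕ, m = 4 * a ∧ Squarefree a ∧ (a % 4 = 2 ∨ a % 4 = 3)) ∧
  ¬ 3 ∣ m ∧ (m % 5 = 1 ∨ m % 5 = 4)

/-- the local factor at `2` for two even norms -/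
def tb (b : ℤ) : ℤ := if b % 4 = 0 then 2 else if b % 4 = 2 then 1 else 0

/-- the local densities for two even norms -/
def locE (n1 : ℕ) (b : ℤ) (D : ℕ) : ℤ :=
  if Odd (D.factorization 5) then
    tb b * ∏ l ∈ (D.primeFactors.erase 2).erase 5, fac n1 D l
  else 0

/-- the same away from `3`, with the count at `3` -/
def loc3E (n1 : ℕ) (b : ℤ) (D : ℕ) : ℤ :=
  if Odd (D.factorization 5) then
    (D.factorization 3 : ℤ) * (tb b * ∏ l ∈ ((D.primeFactors.erase 2).erase 3).erase 5, fac n1 D l)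
  else 0

/-- PCE: the number of pairs of vectors of even norms with given Gram matrix (`n2` is any multiple
of `4`) -/
def S_PCE : Prop := ∀ (n1 n2 : ℕ) (b : ℤ) (D : ℕ), Ev n1 → (n1 % 5 = 2 ∨ n1 % 5 = 3) → 4 ∣ n2 →
  0 < D → (D : ℤ) = n1 * n2 - b ^ 2 → (cp n1 b n2 : ℤ) = 6 * locE n1 b D

/-- CP3E: evaluation of the counts for a given inner product -/
def S_CP3E : Prop := ∀ (n1 n2 : ℕ) (b : ℤ) (D : ℕ), Ev n1 → (n1 % 5 = 2 ∨ n1 % 5 = 3) →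
  n1 % 3 = 2 → 4 ∣ n2 → n2 % 3 = 2 → ¬ (3 : ℤ) ∣ b → 0 < D → (D : ℤ) = n1 * n2 - b ^ 2 →
  (cp n1 b n2 : ℤ) + cp3 n1 b n2 = 12 * loc3E n1 b D

/-- the arithmetic side of the bilinear identities, `N = n` or `N = 2 n` -/
def AAe (n N : ℕ) : ℤ := ∑ T ∈ (range N).filter (fun T => 5 ∣ T ∧ 3 ∣ N - T),
  loc3E n ((T : ℤ) - ((N - T : ℕ) : ℤ)) (4 * (N - T) * T)

def S_BIL1E : Prop := ∀ n : ℕ, Cls0e n → 144 * AAe n n = 3 * rr n ^ 2 + cc n ^ 2

def S_BIL2E : Prop := ∀ n : ℕ, Cls0e n →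
  144 * AAe n (2 * n) = 3 * rr (4 * n) * rr n + cc (4 * n) * cc n

/-- HEE: the Hecke relations at `2`, ramified case -/
def S_HEE : Prop := ∀ m : ℕ, (m % 4 = 1 ∨ m % 4 = 2) → (4 * m) % 3 = 2 →
  rr (16 * m) = 3 * rr (4 * m) ∧ rr0 (16 * m) = 2 * rr (4 * m) - rr0 (4 * m)

/-! ### divisibility and parity -/

/-- U33E -/
def S_U33E : Prop := ∀ m : ℕ, Cls3e m →
  (2 : ℤ) ^ (m.primeFactors.card + 2) ∣
    ∑ d ∈ m.divisors.filter (fun d => Nat.Coprime d (m / d) ∧ (d % 4 = 1 ∨ (m / d) % 4 = 1)),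
      (cp0 (3 * d : ℕ) (3 * (m / d) : ℕ) : ℤ)

/-- U32E -/
def S_U32E : Prop := ∀ n : ℕ, Cls0e n →
  (2 : ℤ) ^ (n.primeFactors.card + 1) ∣
    ∑ d ∈ n.divisors.filter (fun d => Nat.Coprime d (n / d) ∧ (d % 4 = 1 ∨ (n / d) % 4 = 3)),
      (cp0 (3 * d : ℕ) (n / d : ℕ) : ℤ)

/-- the elementary form of no ideal class of order four for the discriminant `-n`, `n = 4 m` -/
def Qe (n : ℕ) : Prop := ∀ d : ℕ, Squarefree d → (∀ p ∈ d.primeFactors, p ∣ n) →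
  (∀ p ∈ n.primeFactors, p ≠ 2 →
    (if p ∣ d then jacobiSym ((d / p * (n / 4 / p) : ℕ) : ℤ) p else jacobiSym d p) = 1) →
  d = 1 ∨ d = n / 4

/-- RE: the parity of the number of vectors (`3 ∣ n` is allowed) -/
def S_RE : Prop := ∀ n : ℕ, Ev n → (n % 5 = 2 ∨ n % 5 = 3) →
  ∃ g : ℤ, rr n = 2 ^ n.primeFactors.card * g ∧ (Odd g ↔ Qe n)

/-- PAR3: the parity law for the auxiliary class -/
def S_PAR3 : Prop := ∀ m : ℕ, Cls3 m → ∃ g y : ℤ,
  rr (3 * m : ℕ) = 2 ^ (m.primeFactors.card + 1) * g ∧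
  cc (3 * m : ℕ) = 2 ^ (m.primeFactors.card + 1) * y ∧ (Odd y ↔ Odd g)

/-- PAR3E: the parity law for the auxiliary class, even discriminants -/
def S_PAR3E : Prop := ∀ m : ℕ, Cls3e m → ∃ g y : ℤ,
  rr (3 * m : ℕ) = 2 ^ (m.primeFactors.card + 1) * g ∧
  cc (3 * m : ℕ) = 2 ^ (m.primeFactors.card + 1) * y ∧ (Odd y ↔ Odd g)

/-- PARE: the parity of the Gross sum -/
def S_PARE : Prop := ∀ n : ℕ, Cls0e n →
  ∃ y : ℤ, cc n = 2 ^ n.primeFactors.card * y ∧ (Odd y ↔ Qe n)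

/-! ### the indefinite side -/

/-- the primitive quadratic character of `2`-power conductor in the character of `ℚ(√-n)`, `n = 4 m` -/
def c2 (n : ℕ) (u : ℤ) : ℤ :=
  if u % 2 = 0 then 0
  else if n % 16 = 4 then (if u % 4 = 1 then 1 else -1)
  else if n % 32 = 8 then (if u % 8 = 1 ∨ u % 8 = 3 then 1 else -1)
  else (if u % 8 = 1 ∨ u % 8 = 7 then 1 else -1)

/-- the character of `ℚ(√-n)`, `n = 4 m` -/
def chE (n : ℕ) (u : ℤ) : ℤ := c2 n u * ∏ p ∈ n.primeFactors.erase 2, jacobiSym u p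

/-- the local weight at `2` -/
def psp2 (n a a' Y X : ℕ) : ℤ :=
  if a % 2 = 1 then c2 n (-((a * X : ℕ) : ℤ)) else if a' % 2 = 1 then c2 n ((a' * Y : ℕ) : ℤ) else 0

/-- the divisor sum of the indefinite side -/
def WWe (n S T : ℕ) : ℤ :=
  ∑ a ∈ S.divisors.filter (3 ∣ ·), ∑ a' ∈ T.divisors.filter (5 ∣ ·),
    psp2 n a a' (S / a) (T / a') * ∏ p ∈ n.primeFactors.erase 2, psp p a a' (S / a) (T / a')

/-- the sum of the divisor sums -/
def WTe (n N : ℕ) : ℤ := ∑ T ∈ (range N).filter (fun T => 5 ∣ T ∧ 3 ∣ N - T), WWe n (N - T) T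

/-- the sum over the cusps for `a Y + a' X = N` -/
def WUe (n N : ℕ) : ℤ := ∑ T ∈ (range N).filter (fun T => 5 ∣ T ∧ 3 ∣ N - T),
  ∑ a ∈ (N - T).divisors.filter (3 ∣ ·), ∑ a' ∈ T.divisors.filter (5 ∣ ·),
    ∑ u ∈ (un n).filter (fun u : ℕ => (n : ℤ) ∣ (a : ℤ) * (u : ℤ) + ((T / a' : ℕ) : ℤ) ∧
      (n : ℤ) ∣ (a' : ℤ) * (u : ℤ) - (((N - T) / a : ℕ) : ℤ)), chE n u

/-- C1AE: the forms and the cusps as factorizations -/
def S_C1AE : Prop := ∀ n : ℕ, Cls0e n →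
  ∑ u ∈ un n, chE n u * Fp u n = 2 * (WUe n (2 * n) - 3 * WUe n n)

/-- C1BE: the character sum over the cusps for a given matrix of determinant `n` or `2 n` -/
def S_C1BE : Prop := ∀ n : ℕ, Ev n → ∀ N : ℕ, (N = n ∨ N = 2 * n) →
  ∀ a a' X Y : ℕ, 0 < a → 0 < a' → 0 < X → 0 < Y → a * Y + a' * X = N →
  ∑ u ∈ (un n).filter (fun u : ℕ => (n : ℤ) ∣ (a : ℤ) * (u : ℤ) + (X : ℤ) ∧
    (n : ℤ) ∣ (a' : ℤ) * (u : ℤ) - (Y : ℤ)), chE n u =
      psp2 n a a' Y X * ∏ p ∈ n.primeFactors.erase 2, psp p a a' Y X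

/-- C2E: evaluation of the divisor sums, determinant `n` or `2 n` -/
def S_C2E : Prop := ∀ n : ℕ, Cls0e n → ∀ N : ℕ, (N = n ∨ N = 2 * n) →
  ∀ T : ℕ, 0 < T → T < N → 5 ∣ T → 3 ∣ N - T →
  WWe n (N - T) T = - loc3E n ((T : ℤ) - ((N - T : ℕ) : ℤ)) (4 * (N - T) * T)

/-- DIAGE: the character sum of `Fp` is a square up to a factor -/
def S_DIAGE : Prop := ∀ n : ℕ, Cls0e n →
  18 * ∑ u ∈ un n, chE n u * Fp u n = cc n ^ 2

end

end Pool.Agent.N969.P15
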