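import Pool.Agent.N975.SymFin
import Pool.Agent.N975.Lat15
import Pool.Agent.N974.MF.Symb
import Pool.Agent.N974.MF.Lfin
import Pool.Agent.Y687.K2.RankForm

/-!
# From the diagonal identity and the parity to the central value (odd discriminants prime to `15`)
-/

set_option autoImplicit false

namespace Pool.Agent.N969.P15

open Finset
open Pool.Agent.TH942 (sw SPt sw_eqn sw_nonsing)
open Pool.Agent.N974.MF (Symb15)

/-- the relations of the symbol in the form needed for the counting function -/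
theorem symbM_of {s : ℚ → ℤ} {a : ℕ → ℤ} (h : Symb15 s a) : Pool.Agent.N975.Sym.SymbM s where
  per := h.per
  neg := h.neg
  hecke2 := by
    intro x
    have h1 := h.hecke 2 Nat.prime_two (by norm_num) x
    rw [h.a2, Finset.sum_range_succ, Finset.sum_range_succ, Finset.sum_range_zero] at h1
    push_cast at h1
    rw [zero_add, add_zero] at h1
    linarith
  aff := by
    intro A B C D hdet x c hco
    have hc : c ≠ 0 := by
      rintro rfl
      obtain ⟨u, v, huv⟩ := hco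
      rw [mul_zero, add_zero] at huv
      have h3 : (15 : ℤ) ∣ 1 := ⟨u * x, by linarith⟩
      norm_num at h3
    refine h.aff' hdet hc ?_
    intro h0
    obtain ⟨u, v, huv⟩ := hco
    have h15D : IsCoprime (15 : ℤ) D := ⟨-(B * C), A, by linarith⟩
    have h15c : IsCoprime (15 : ℤ) c := ⟨u * x, v, by linarith⟩
    have h4 : (15 : ℤ) ∣ D * c := ⟨-(C * x), by linarith⟩
    have h5 : (15 : ℤ) ∣ c := h15D.dvd_of_dvd_mul_left h4
    obtain ⟨k, hk⟩ := h5
    obtain ⟨p, q, hpq⟩ := h15c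
    have h3 : (15 : ℤ) ∣ 1 := ⟨p + q * k, by rw [← hpq, hk]; ring⟩
    norm_num at h3

theorem set_of_pt {a b : ℤ} (h0 : 4 * a ^ 3 + 27 * b ^ 2 ≠ 0)
    (h : Finite (SPt (a : ℚ) (b : ℚ))) :
    {q : ℚ × ℚ | q.2 ^ 2 = q.1 ^ 3 + (a : ℚ) * q.1 + (b : ℚ)}.Finite := by
  have hD : 4 * (a : ℚ) ^ 3 + 27 * (b : ℚ) ^ 2 ≠ 0 := by exact_mod_cast h0
  let g : {q : ℚ × ℚ | q.2 ^ 2 = q.1 ^ 3 + (a : ℚ) * q.1 + (b : ℚ)} → SPt (a : ℚ) (b : ℚ) :=
    fun q => WeierstrassCurve.Affine.Point.some q.1.1 q.1.2 (sw_nonsing hD q.2)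
  have hg : Function.Injective g := by
    intro x y hxy
    simp only [g, WeierstrassCurve.Affine.Point.some.injEq] at hxy
    exact Subtype.ext (Prod.ext hxy.1 hxy.2)
  have h1 : Finite {q : ℚ × ℚ | q.2 ^ 2 = q.1 ^ 3 + (a : ℚ) * q.1 + (b : ℚ)} :=
    Finite.of_injective g hg
  exact Set.toFinite _

/-- the conclusion of the frozen statement for `y² = x³ + a x + b`, together with the fact that the
order of vanishing and the rank are both `0` -/
def BSDRankZero (a b : ℤ) : Prop :=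
  4 * a ^ 3 + 27 * b ^ 2 ≠ 0 ∧
    ∃ F : ℂ → ℂ, Differentiable ℂ F ∧
      (∀ s : ℂ, (3 : ℝ) / 2 < s.re →
        HasProd
          (fun p : ℕ => open Classical in
            if p.Prime ∧ ¬ ((p : ℤ) ∣ 2 * (-4 * a ^ 3 - 27 * b ^ 2)) then
              (1 - ((p : ℂ) - (Nat.card {q : ZMod p × ZMod p //
                  q.2 ^ 2 = q.1 ^ 3 + (a : ZMod p) * q.1 + (b : ZMod p)} : ℂ))
                  * (p : ℂ) ^ (-s) + (p : ℂ) ^ (1 - 2 * s))⁻¹
            else 1)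
          (F s)) ∧
      analyticOrderAt F 1 =
        ((Module.finrank ℤ
          (WeierstrassCurve.Affine.Point
            (WeierstrassCurve.toAffine
              ({ a₁ := 0, a₂ := 0, a₃ := 0, a₄ := (a : ℚ), a₆ := (b : ℚ) } :
                WeierstrassCurve ℚ))) : ℕ) : ℕ∞) ∧
      Module.finrank ℤ
        (WeierstrassCurve.Affine.Point
          (WeierstrassCurve.toAffine
            ({ a₁ := 0, a₂ := 0, a₃ := 0, a₄ := (a : ℚ), a₆ := (b : ℚ) } :
              WeierstrassCurve ℚ))) = 0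

theorem bsd_of {a b : ℤ} (h0 : 4 * a ^ 3 + 27 * b ^ 2 ≠ 0) {f : ℂ → ℂ} (hf : Differentiable ℂ f)
    (hp : ∀ s : ℂ, (3 : ℝ) / 2 < s.re →
        HasProd (fun l : {l : ℕ // l.Prime ∧ ¬ ((l : ℤ) ∣ 2 * (4 * a ^ 3 + 27 * b ^ 2))} =>
          Pool.Agent.Y687.fac a b s l) (f s)) (h1 : f 1 ≠ 0)
    (hfin : Finite (SPt (a : ℚ) (b : ℚ))) : BSDRankZero a b := by
  obtain ⟨F, h1, h2, h3, h4⟩ := Pool.Agent.Y687.rankBSD hf hp h1 (set_of_pt h0 hfin)
  exact ⟨h0, F, h1, h2, by rw [h3, h4]; rfl, h4⟩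

theorem disc_ne {D : ℤ} (hD : D ≠ 0) :
    4 * (-12987 * D ^ 2) ^ 3 + 27 * (-263466 * D ^ 3) ^ 2 ≠ 0 := by
  have e : 4 * (-12987 * D ^ 2) ^ 3 + 27 * (-263466 * D ^ 3) ^ 2 =
      (4 * (-12987) ^ 3 + 27 * 263466 ^ 2) * D ^ 6 := by ring
  rw [e]
  exact mul_ne_zero (by norm_num) (pow_ne_zero 6 hD)

/-- the central value for a discriminant of the class `23`, `47` modulo `60` without ideal classes of
order four -/
theorem value_of (hDI : S_DIAG) (hPA : S_PAR) {n : ℕ} (hn : Cls0 n) (hQ : Qc n) :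
    ∃ f : ℂ → ℂ, Differentiable ℂ f ∧
      (∀ s : ℂ, (3 : ℝ) / 2 < s.re →
        HasProd (fun p : {p : ℕ // p.Prime ∧
            ¬ ((p : ℤ) ∣ 2 * (4 * (-12987 * (-(n : ℤ)) ^ 2) ^ 3 +
              27 * (-263466 * (-(n : ℤ)) ^ 3) ^ 2))} =>
          Pool.Agent.Y687.fac (-12987 * (-(n : ℤ)) ^ 2) (-263466 * (-(n : ℤ)) ^ 3) s p) (f s)) ∧
      f 1 ≠ 0 := by
  obtain ⟨sp, sm, Op, Om, hOp, hOm, hII, -, -, hS⟩ :=
    Pool.Agent.N974.MF.exists_symb Pool.Agent.N975.Lat15.s_lat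
  have h4 : sm (1 / 4) ≠ 0 := by
    rw [hS.s14]
    have h5 : Odd (sm (1 / 3)) := by
      refine hS.odd3 (1 / 3) ?_ ?_ <;> norm_num
    intro h6
    have h7 : sm (1 / 3) = 0 := by omega
    rw [h7] at h5
    exact absurd h5 (by decide)
  have hne := Pool.Agent.N975.Sym.sum_symb_ne hDI hPA (symbM_of hS) h4 hn hQ
  have hsq := hn.1
  have h60 := hn.2
  refine Pool.Agent.N974.MF.exists_f_neD Pool.Agent.N975.Lat15.s_lat (-(n : ℤ)) ?_ ?_ ?_ ?_ hOp hOm
    hII (Or.inr ?_)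
  · rw [← Int.squarefree_natAbs, Int.natAbs_neg, Int.natAbs_natCast]
    exact hsq
  · rw [Int.natAbs_neg, Int.natAbs_natCast]
    omega
  · omega
  · rw [Int.natAbs_neg, Int.natAbs_natCast]
    exact (Pool.Agent.N975.Sym.cls0_cop hn).symm
  · rw [Int.natAbs_neg, Int.natAbs_natCast]
    exact hne

end Pool.Agent.N969.P15
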