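import Mathlib
import Pool.Agent.N969.P15.Defs

/-!
# The assembly of the diagonal identity
-/

set_option autoImplicit false

namespace Pool.Agent.N969.P15

open Finset

theorem cls0_mod {n : ℕ} (h : Cls0 n) : n % 4 = 3 ∧ n % 3 = 2 ∧ (n % 5 = 2 ∨ n % 5 = 3) ∧ 0 < n := by
  obtain ⟨-, h | h⟩ := h <;> omega

theorem diag_WU (h1 : S_C1B) {n N : ℕ} (hs : Squarefree n) (h4 : n % 4 = 3)
    (hN : N = n ∨ N = 2 * n) : WU n N = WT n N := by
  unfold WU WT WW
  refine Finset.sum_congr rfl fun T hT => ?_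
  rw [mem_filter, mem_range] at hT
  refine Finset.sum_congr rfl fun a ha => ?_
  refine Finset.sum_congr rfl fun a' ha' => ?_
  have h3 : a ∣ N - T := Nat.dvd_of_mem_divisors (Finset.mem_filter.1 ha).1
  have h5 : a' ∣ T := Nat.dvd_of_mem_divisors (Finset.mem_filter.1 ha').1
  refine h1 n hs h4 N hN a a' (T / a') ((N - T) / a) ?_
  rw [Nat.mul_div_cancel' h3, Nat.mul_div_cancel' h5]
  omega

theorem diag_W1 (h2 : S_C2A) {n : ℕ} (hn : Cls0 n) : WT n n = - AA n n := by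
  obtain ⟨h4, h3, -, hp⟩ := cls0_mod hn
  unfold WT AA
  rw [← Finset.sum_neg_distrib]
  refine Finset.sum_congr rfl fun T hT => ?_
  rw [mem_filter, mem_range] at hT
  obtain ⟨a1, a2, a3⟩ := hT
  refine h2 n hn T ?_ a1 a2 a3
  rcases Nat.eq_zero_or_pos T with rfl | h
  · omega
  · exact h

theorem diag_W2 (h2 : S_C2B) {n : ℕ} (hn : Cls0 n) :
    WT n (2 * n) = - (AA n (2 * n) + ep2 n * AA n n) := by
  obtain ⟨h4, h3, -, hp⟩ := cls0_mod hn
  have e1 : WT n (2 * n) = ∑ T ∈ (range (2 * n)).filter (fun T => 5 ∣ T ∧ 3 ∣ 2 * n - T),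
      (- (loc3 n (4 * (2 * n - T) * T)) +
        - (if 2 ∣ T then ep2 n * loc3 n ((2 * n - T) * T) else 0)) := by
    unfold WT
    refine Finset.sum_congr rfl fun T hT => ?_
    rw [mem_filter, mem_range] at hT
    obtain ⟨a1, a2, a3⟩ := hT
    rw [h2 n hn T ?_ a1 a2 a3]
    · ring
    · rcases Nat.eq_zero_or_pos T with rfl | h
      · omega
      · exact h
  have e2 : ∑ T ∈ (range (2 * n)).filter (fun T => 5 ∣ T ∧ 3 ∣ 2 * n - T),
      (if 2 ∣ T then ep2 n * loc3 n ((2 * n - T) * T) else 0) = ep2 n * AA n n := by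
    rw [← Finset.sum_filter]
    unfold AA
    rw [Finset.mul_sum]
    symm
    refine Finset.sum_nbij (fun T : ℕ => 2 * T) ?_ ?_ ?_ ?_
    · intro T hT
      rw [mem_filter, mem_range] at hT
      rw [mem_filter, mem_filter, mem_range]
      omega
    · intro T _ T' _ h
      have h' : 2 * T = 2 * T' := h
      omega
    · intro T hT
      rw [mem_coe, mem_filter, mem_filter, mem_range] at hT
      obtain ⟨⟨b1, b2, b3⟩, k, hk⟩ := hT
      refine ⟨k, ?_, hk.symm⟩
      rw [mem_coe, mem_filter, mem_range]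
      omega
    · intro T hT
      rw [mem_filter, mem_range] at hT
      have h6 : 4 * (n - T) * T = (2 * n - 2 * T) * (2 * T) := by
        have h7 : 2 * n - 2 * T = 2 * (n - T) := by omega
        rw [h7]
        ring
      rw [h6]
  rw [e1, Finset.sum_add_distrib, Finset.sum_neg_distrib, Finset.sum_neg_distrib, e2]
  unfold AA
  ring

theorem t_DIAG (h1a : S_C1A) (h1b : S_C1B) (h2a : S_C2A) (h2b : S_C2B) (hb1 : S_BIL1)
    (hb2 : S_BIL2) (hHE : S_HE) : S_DIAG := by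
  intro n hn
  obtain ⟨h4, h3, -, hp⟩ := cls0_mod hn
  rw [h1a n hn, diag_WU h1b hn.1 h4 (Or.inr rfl), diag_WU h1b hn.1 h4 (Or.inl rfl),
    diag_W1 h2a hn, diag_W2 h2b hn]
  have k1 := hb1 n hn
  have k2 := hb2 n hn
  obtain ⟨k3, k4⟩ := hHE n h4 h3
  have k5 : cc (4 * n) = -(1 + ep2 n) * cc n := by
    unfold cc
    have m1 : ¬ (4 * (n : ℤ)) % 3 = 0 := by omega
    have m2 : ¬ (n : ℤ) % 3 = 0 := by omega
    rw [if_neg m1, if_neg m2, k3, k4]
    ring
  rw [k3, k5] at k2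
  have k7 : 4 * (18 * (2 * (-(AA n (2 * n) + ep2 n * AA n n) - 3 * -AA n n))) = 4 * cc n ^ 2 := by
    linear_combination (3 - ep2 n) * k1 - k2
  linarith

end Pool.Agent.N969.P15
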