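import Mathlib

/-!
# The imaginary quadratic field `ℚ(√-n)`
-/

set_option autoImplicit false

open Polynomial

namespace Pool.Agent.N969.P15

/-- the field `ℚ(√-n)` exists -/
theorem exists_qf {n : ℕ} (hn : 0 < n) : ∃ (K : Type) (_ : Field K) (_ : NumberField K),
    Module.finrank ℚ K = 2 ∧ ∃ s : K, s ^ 2 = -(n : K) := by
  set f : ℚ[X] := X ^ 2 + C (n : ℚ) with hf
  have hdeg : f.natDegree = 2 := natDegree_X_pow_add_C
  have hmon : f.Monic := monic_X_pow_add_C _ (by norm_num)
  have hirr : Irreducible f := by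
    rw [hmon.irreducible_iff_roots_eq_zero_of_degree_le_three (by omega) (by omega)]
    rw [Multiset.eq_zero_iff_forall_notMem]
    intro x hx
    rw [mem_roots hmon.ne_zero, IsRoot.def, hf, eval_add, eval_pow, eval_X, eval_C] at hx
    have h1 : (0 : ℚ) < n := by exact_mod_cast hn
    nlinarith [sq_nonneg x]
  have : Fact (Irreducible f) := ⟨hirr⟩
  have hfd : FiniteDimensional ℚ (AdjoinRoot f) := (AdjoinRoot.powerBasis hirr.ne_zero).finite
  have hc : CharZero (AdjoinRoot f) :=
    charZero_of_injective_algebraMap (algebraMap ℚ (AdjoinRoot f)).injective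
  refine ⟨AdjoinRoot f, inferInstance, { to_charZero := hc, to_finiteDimensional := ?_ },
    ?_, AdjoinRoot.root f, ?_⟩
  · convert hfd
  · rw [← hdeg, ← AdjoinRoot.powerBasis_dim hirr.ne_zero, ← PowerBasis.finrank]
  · have h : eval₂ (AdjoinRoot.of f) (AdjoinRoot.root f) (X ^ 2 + C (n : ℚ)) = 0 :=
      AdjoinRoot.eval₂_root f
    rw [eval₂_add, eval₂_pow, eval₂_X, eval₂_C] at h
    have h2 : (AdjoinRoot.of f) (n : ℚ) = (n : AdjoinRoot f) := map_natCast _ _
    rw [h2] at h
    exact eq_neg_of_add_eq_zero_left h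

end Pool.Agent.N969.P15
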