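import Mathlib
import Pool.Agent.N969.P15.Defs2

/-!
# The assembly of the diagonal identity, even discriminants
-/

set_option autoImplicit false

namespace Pool.Agent.N969.P15

open Finset

theorem cls0e_mod {n : ℕ} (h : Cls0e n) : ∃ m, n = 4 * m ∧ (m % 4 = 1 ∨ m % 4 = 2) ∧ n % 3 = 2 ∧
    0 < n := by
  obtain ⟨⟨m, h1, -, h3⟩, h4, -⟩ := h
  exact ⟨m, h1, h3, h4, by omega⟩

theorem diage_WU (h1 : S_C1BE) {n N : ℕ} (hs : Ev n) (h3 : n % 3 = 2)
    (hN : N = n ∨ N = 2 * n) : WUe n N = WTe n N := by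
  unfold WUe WTe WWe
  refine Finset.sum_congr rfl fun T hT => ?_
  rw [mem_filter, mem_range] at hT
  refine Finset.sum_congr rfl fun a ha => ?_
  refine Finset.sum_congr rfl fun a' ha' => ?_
  have hT0 : 0 < T := by
    rcases Nat.eq_zero_or_pos T with rfl | h
    · omega
    · exact h
  have h3 : a ∣ N - T := Nat.dvd_of_mem_divisors (Finset.mem_filter.1 ha).1
  have h5 : a' ∣ T := Nat.dvd_of_mem_divisors (Finset.mem_filter.1 ha').1
  have p1 : 0 < a := Nat.pos_of_dvd_of_pos h3 (by omega)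
  have p2 : 0 < a' := Nat.pos_of_dvd_of_pos h5 hT0
  refine h1 n hs N hN a a' (T / a') ((N - T) / a) p1 p2 (Nat.div_pos (Nat.le_of_dvd hT0 h5) p2)
    (Nat.div_pos (Nat.le_of_dvd (by omega) h3) p1) ?_
  rw [Nat.mul_div_cancel' h3, Nat.mul_div_cancel' h5]
  omega

theorem diage_W (h2 : S_C2E) {n N : ℕ} (hn : Cls0e n) (hN : N = n ∨ N = 2 * n) :
    WTe n N = - AAe n N := by
  obtain ⟨m, h1, -, h3, hp⟩ := cls0e_mod hn
  unfold WTe AAe
  rw [← Finset.sum_neg_distrib]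
  refine Finset.sum_congr rfl fun T hT => ?_
  rw [mem_filter, mem_range] at hT
  obtain ⟨a1, a2, a3⟩ := hT
  refine h2 n hn N hN T ?_ a1 a2 a3
  rcases Nat.eq_zero_or_pos T with rfl | h
  · omega
  · exact h

theorem t_DIAGE (h1a : S_C1AE) (h1b : S_C1BE) (h2 : S_C2E) (hb1 : S_BIL1E)
    (hb2 : S_BIL2E) (hHE : S_HEE) : S_DIAGE := by
  intro n hn
  obtain ⟨m, h1, h4, h3, hp⟩ := cls0e_mod hn
  rw [h1a n hn, diage_WU h1b hn.1 h3 (Or.inr rfl), diage_WU h1b hn.1 h3 (Or.inl rfl),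
    diage_W h2 hn (Or.inr rfl), diage_W h2 hn (Or.inl rfl)]
  have k1 := hb1 n hn
  have k2 := hb2 n hn
  obtain ⟨k3, k4⟩ := hHE m h4 (by omega)
  have e4 : (4 : ℤ) * (n : ℤ) = 16 * m := by rw [h1]; push_cast; ring
  have en : (4 : ℤ) * (m : ℤ) = n := by rw [h1]; push_cast; ring
  rw [en] at k3 k4
  rw [← e4] at k3 k4
  have k5 : cc (4 * n) = - cc n := by
    unfold cc
    have m1 : ¬ (4 * (n : ℤ)) % 3 = 0 := by omega
    have m2 : ¬ (n : ℤ) % 3 = 0 := by omega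
    rw [if_neg m1, if_neg m2, k3, k4]
    ring
  rw [k3, k5] at k2
  have k7 : 4 * (18 * (2 * (-(AAe n (2 * n)) - 3 * -AAe n n))) = 4 * cc n ^ 2 := by
    linear_combination 3 * k1 - k2
  linarith

end Pool.Agent.N969.P15
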