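import Pool.Agent.N969.P15.Glue
import Pool.Agent.N969.P15.DIAG
import Pool.Agent.N973.P15.C1A
import Pool.Agent.N402.P15.C1B
import Pool.Agent.N295.P15.C2
import Pool.Agent.N973.P15.BIL
import Pool.Agent.N575.P15.HE
import Pool.Agent.N871.P15.Fin
import Pool.Agent.N875.X15.Short
import Pool.Agent.N916.GB.Fin

/-!
# The twists of `X_0(15)` by `-n`, `n` squarefree, `n ≡ 23, 47 mod 60`

Everything is unconditional. Parts by helpers 969 (statements, assembly), 972 (Eichler's formula for
the pair counts), 877 (sum of the Gross coefficients), 575 (Hecke relations), 973 (local relation,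
generating functions, bilinear sums), 402 and 295 (divisor sums), 871 and 218 (parity), 974 and 970
(the modular curve, the symbol and the `L`-function), 975 (the symbol as a counting function, the
lattice), 875 (the algebraic side), 916, 958, 218 and others (natural density).
-/

set_option autoImplicit false

namespace Pool.Agent.N969.P15

open Finset

/-- the diagonal identity -/
theorem f_DIAG : S_DIAG :=
  t_DIAG Pool.Agent.N973.P15.C.t_C1A Pool.Agent.N402.P15.t_C1B Pool.Agent.N295.P15.t_C2A
    Pool.Agent.N295.P15.t_C2B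
    (Pool.Agent.N973.P15.t_BIL1 Pool.Agent.N973.P15.t_REL22 Pool.Agent.N871.P15.s_CP3)
    (Pool.Agent.N973.P15.t_BIL2 Pool.Agent.N973.P15.t_REL22 Pool.Agent.N871.P15.s_CP3)
    Pool.Agent.N575.P15.t_HE

/-- **the theorem for the class `23`, `47` modulo `60`** -/
theorem t_T1 {n : ℕ} (hn : Cls0 n) (hQ : Qc n) :
    BSDRankZero (-12987 * (-(n : ℤ)) ^ 2) (-263466 * (-(n : ℤ)) ^ 3) := by
  have h0 : (-(n : ℤ)) ≠ 0 := by
    have := hn.1.ne_zero
    omega
  obtain ⟨f, hf, hp, h1⟩ := value_of f_DIAG Pool.Agent.N871.P15.s_PAR hn hQ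
  have hfin := ((Pool.Agent.N875.X15.fin2_iff hn.1 hn.2).2 hQ).1
  exact bsd_of (disc_ne h0) hf hp h1 hfin

end Pool.Agent.N969.P15
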